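import Pool.Agent.Lib.MP_30f764_gt.NMain

namespace Pool.Agent.Results.MP_30f764_gt.EnergyLower
open Filter Pool.Agent.Lib.MP_30f764_gt

theorem result (α ρ c : ℝ) (hα : Real.pi ^ 2 / 2 ≤ α) (hρ : 0 < ρ) (hc0 : 0 < c)
    (hc : c < Real.sqrt (2 * Real.exp 1 / Real.pi) * Real.exp (-α / Real.pi ^ 2)) :
    ∀ᶠ n : ℕ in atTop, ENNReal.ofReal (c ^ n) ≤ minEnergy n α ρ :=
  Ml.energy_lower hα hρ hc hc0

end Pool.Agent.Results.MP_30f764_gt.EnergyLower
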