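import Pool.Agent.Lib.MP_30f764_gt.LPExact

namespace Pool.Agent.Results.MP_30f764_gt.LPRate
open Filter Topology Pool.Agent.Lib.MP_30f764_gt

theorem result (α ρ : ℝ) (hα : Real.pi ^ 2 / 2 < α) (hρ : 0 < ρ) :
    Tendsto (fun n : ℕ => lpBound n α ρ ^ ((1 : ℝ) / n)) atTop
      (𝓝 (Real.sqrt (2 * Real.exp 1 / Real.pi) * Real.exp (-α / Real.pi ^ 2))) :=
  Ml.lp_exact hα hρ

end Pool.Agent.Results.MP_30f764_gt.LPRate
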