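import Pool.Agent.Lib.MP_30f764_gt.MMain

namespace Pool.Agent.Results.MP_30f764_gt.ThresholdPiSqHalf
open Filter Pool.Agent.Lib.MP_30f764_gt

theorem result (K : Set (ℝ × ℝ)) (hK : IsCompact K)
    (hsub : K ⊆ Set.Ioo (0 : ℝ) (Real.pi ^ 2 / 2) ×ˢ Set.Ioi (0 : ℝ)) :
    TendstoUniformlyOn
      (fun (n : ℕ) (p : ℝ × ℝ) =>
        (p.1 / Real.pi) ^ ((n : ℝ) / 2) * (minEnergy n p.1 p.2).toReal)
      (fun p => p.2) atTop K :=
  Ml.main K hK hsub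

end Pool.Agent.Results.MP_30f764_gt.ThresholdPiSqHalf
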